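import Pool.Agent.R560.Stab.Weyl

/-!
# Further closure properties of stabilizer-like functions
-/

set_option autoImplicit false

namespace Pool.Agent.R560.Stab

open Finset Module

variable {ι κ η : Type*} [Fintype ι] [Fintype κ] [Fintype η]

theorem StabLike.W {f : BV ι → ℂ} (hf : StabLike f) (q : BV ι × BV ι) :
    StabLike (W q f) := by
  rcases hf with rfl | hf
  · left; funext x; simp [Stab.W]
  right
  refine hf.trans (Submodule.finrank_mono ?_)
  rintro p ⟨c, hc⟩
  have h1 := W_W p q f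
  have h2 := W_W q p f
  rw [hc, W_smul, add_comm q p] at h2
  refine ⟨sg (q.2 ⬝ᵥ p.1) * (sg (p.2 ⬝ᵥ q.1) * c), ?_⟩
  rw [h1, mul_smul, mul_smul, h2, smul_smul (sg (p.2 ⬝ᵥ q.1)) (sg (p.2 ⬝ᵥ q.1)), sg_mul_self,
    one_smul]

theorem StabLike.translate {f : BV ι → ℂ} (hf : StabLike f) (t : BV ι) :
    StabLike (fun x => f (x + t)) := by
  have h := hf.W (t, 0)
  have e : Stab.W (t, 0) f = fun x => f (x + t) := by
    funext x; simp [Stab.W]
  rwa [e] at h

/-- Multiplication by a quadratic sign. -/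
theorem StabLike.mul_sg [DecidableEq ι] {f : BV ι → ℂ} (hf : StabLike f) (q : BV ι → ZMod 2)
    (B : Matrix ι ι (ZMod 2)) (hq : ∀ x y, q (x + y) = q x + q y + (B.mulVec y) ⬝ᵥ x) :
    StabLike (fun x => sg (q x) * f x) := by
  rcases hf with rfl | hf
  · left; funext x; simp
  right
  let T : (BV ι × BV ι) →ₗ[ZMod 2] (BV ι × BV ι) :=
    LinearMap.prod (LinearMap.fst _ _ _)
      (LinearMap.snd _ _ _ + B.mulVecLin.comp (LinearMap.fst _ _ _))
  have hT : ∀ p, T p = (p.1, p.2 + B.mulVec p.1) := fun p => rfl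
  have hinj : Function.Injective T := by
    intro p p' h
    rw [hT, hT] at h
    obtain ⟨h1, h2⟩ := Prod.mk.inj h
    refine Prod.ext h1 ?_
    rw [h1] at h2
    exact add_right_cancel h2
  have h1 : (G f).map T ≤ G (fun x => sg (q x) * f x) := by
    rintro _ ⟨p, ⟨c, hc⟩, rfl⟩
    refine ⟨sg (q p.1) * c, ?_⟩
    funext x
    have hx := congrFun hc x
    simp only [Stab.W, Pi.smul_apply, smul_eq_mul] at hx
    simp only [Stab.W, hT, Pi.smul_apply, smul_eq_mul, hq, sg_add, add_dotProduct]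
    have h3 := sg_mul_self (B.mulVec p.1 ⬝ᵥ x)
    linear_combination (sg (q x) * sg (q p.1)) * hx +
      (sg (p.2 ⬝ᵥ x) * sg (q x) * sg (q p.1) * f (x + p.1)) * h3
  have h2 : finrank (ZMod 2) ((G f).map T) = finrank (ZMod 2) (G f) :=
    (Submodule.equivMapOfInjective T hinj (G f)).finrank_eq.symm
  exact hf.trans (h2 ▸ Submodule.finrank_mono h1)

theorem dot_sum (x y : BV (η ⊕ κ)) :
    x ⬝ᵥ y = (x ∘ Sum.inl) ⬝ᵥ (y ∘ Sum.inl) + (x ∘ Sum.inr) ⬝ᵥ (y ∘ Sum.inr) := by
  simp [dotProduct, Fintype.sum_sum_type]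

/-- Summation over some of the bits. -/
theorem StabLike.sum [DecidableEq η] {f : BV (η ⊕ κ) → ℂ} (hf : StabLike f) :
    StabLike (fun y : BV κ => ∑ h : BV η, f (Sum.elim h y)) := by
  classical
  by_cases hf0 : f = 0
  · left; subst hf0; funext x; simp
  have hG : Fintype.card η + Fintype.card κ ≤ finrank (ZMod 2) (G f) := by
    rcases hf with h | h
    · exact absurd h hf0
    · simpa using h
  right
  let ρ : (BV (η ⊕ κ) × BV (η ⊕ κ)) →ₗ[ZMod 2] (BV κ × BV κ) :=
    LinearMap.prodMap (LinearMap.funLeft (ZMod 2) (ZMod 2) Sum.inr)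
      (LinearMap.funLeft (ZMod 2) (ZMod 2) Sum.inr)
  let τ : (BV (η ⊕ κ) × BV (η ⊕ κ)) →ₗ[ZMod 2] BV η :=
    (LinearMap.funLeft (ZMod 2) (ZMod 2) Sum.inl).comp (LinearMap.snd _ _ _)
  let S : Submodule (ZMod 2) (BV (η ⊕ κ) × BV (η ⊕ κ)) := G f ⊓ LinearMap.ker τ
  have hS : S.map ρ ≤ G (fun y : BV κ => ∑ h : BV η, f (Sum.elim h y)) := by
    rintro _ ⟨p, ⟨⟨c, hc⟩, hp⟩, rfl⟩
    refine ⟨c, ?_⟩
    have hp' : p.2 ∘ Sum.inl = 0 := hp
    funext y
    simp only [Stab.W, Pi.smul_apply, smul_eq_mul, Finset.mul_sum]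
    have e1 : ∀ h : BV η, c * f (Sum.elim h y) =
        sg ((p.2 ∘ Sum.inr) ⬝ᵥ y) * f (Sum.elim (h + p.1 ∘ Sum.inl) (y + p.1 ∘ Sum.inr)) := by
      intro h
      have := congrFun hc (Sum.elim h y)
      simp only [Stab.W, Pi.smul_apply, smul_eq_mul] at this
      rw [← this, dot_sum, hp', zero_dotProduct, zero_add]
      congr 2
      funext i
      rcases i with i | i <;> rfl
    rw [Finset.sum_congr rfl (fun h _ => e1 h)]
    exact (Fintype.sum_equiv (Equiv.addRight (p.1 ∘ Sum.inl)) _ _ (fun h => rfl)).symm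
  refine le_trans ?_ (Submodule.finrank_mono hS)
  let K : Submodule (ZMod 2) (BV η) :=
    (G f).comap ((LinearMap.inl (ZMod 2) (BV (η ⊕ κ)) (BV (η ⊕ κ))).comp
      (LinearMap.pi (Sum.elim (fun i => LinearMap.proj i) (fun _ => 0))))
  have hK : ∀ k : BV η, k ∈ K ↔ (Sum.elim k 0, 0) ∈ G f := by
    intro k
    have e : ((LinearMap.inl (ZMod 2) (BV (η ⊕ κ)) (BV (η ⊕ κ))).comp
      (LinearMap.pi (Sum.elim (fun i => LinearMap.proj i) (fun _ => 0)))) k =
      ((Sum.elim k 0, 0) : BV (η ⊕ κ) × BV (η ⊕ κ)) := by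
      refine Prod.ext ?_ rfl
      funext i
      rcases i with i | i <;> rfl
    rw [Submodule.mem_comap, e]
  have h1 : finrank (ZMod 2) K + finrank (ZMod 2) (LinearMap.range (τ.domRestrict (G f))) ≤
      Fintype.card η := by
    apply orth_le
    rintro k hk _ ⟨⟨p, hp⟩, rfl⟩
    rw [hK] at hk
    have := G_comm hf0 hp hk
    simp only [zero_dotProduct, zero_add, dot_sum] at this
    have e : (p.2 ∘ Sum.inr) ⬝ᵥ ((Sum.elim k (0 : BV κ)) ∘ Sum.inr) = 0 := by
      have : (Sum.elim k (0 : BV κ)) ∘ Sum.inr = 0 := rfl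
      rw [this, dotProduct_zero]
    rw [e, add_zero] at this
    exact this
  have h2 := LinearMap.finrank_range_add_finrank_ker (τ.domRestrict (G f))
  have h3 : finrank (ZMod 2) (LinearMap.ker (τ.domRestrict (G f))) ≤ finrank (ZMod 2) S := by
    have : ∀ z : LinearMap.ker (τ.domRestrict (G f)), ((G f).subtype z.1) ∈ S :=
      fun z => ⟨z.1.2, z.2⟩
    have hinj : Function.Injective (LinearMap.codRestrict S
        ((G f).subtype.comp (LinearMap.ker (τ.domRestrict (G f))).subtype) this) := by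
      intro z z' h
      have h' := congrArg (fun w : S => (w : BV (η ⊕ κ) × BV (η ⊕ κ))) h
      exact Subtype.ext (Subtype.ext h')
    exact LinearMap.finrank_le_finrank_of_injective hinj
  have h4 := LinearMap.finrank_range_add_finrank_ker (ρ.domRestrict S)
  have h5 : finrank (ZMod 2) (LinearMap.ker (ρ.domRestrict S)) ≤ finrank (ZMod 2) K := by
    let g : LinearMap.ker (ρ.domRestrict S) →ₗ[ZMod 2] BV η :=
      (LinearMap.funLeft (ZMod 2) (ZMod 2) Sum.inl).comp
        ((LinearMap.fst _ _ _).comp (S.subtype.comp (LinearMap.ker (ρ.domRestrict S)).subtype))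
    have hx : ∀ z : LinearMap.ker (ρ.domRestrict S), z.1.1 = (Sum.elim (g z) 0, 0) := by
      rintro ⟨⟨⟨p1, p2⟩, hpG, hpτ⟩, hz⟩
      have e1 : (p1 ∘ Sum.inr, p2 ∘ Sum.inr) = ((0, 0) : BV κ × BV κ) := hz
      have e2 : p2 ∘ Sum.inl = 0 := hpτ
      obtain ⟨e3, e4⟩ := Prod.mk.inj e1
      refine Prod.ext ?_ ?_
      · funext i
        rcases i with i | i
        · rfl
        · exact congrFun e3 i
      · funext i
        rcases i with i | i
        · exact congrFun e2 i
        · exact congrFun e4 i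
    have hg : ∀ z, g z ∈ K := by
      intro z
      rw [hK, ← hx z]
      exact z.1.2.1
    have hinj : Function.Injective (LinearMap.codRestrict K g hg) := by
      intro z z' h
      have h' : g z = g z' := congrArg Subtype.val h
      apply Subtype.ext
      apply Subtype.ext
      rw [hx z, hx z', h']
    exact LinearMap.finrank_le_finrank_of_injective hinj
  have h6 : finrank (ZMod 2) (LinearMap.range (ρ.domRestrict S)) =
      finrank (ZMod 2) (S.map ρ) := by
    rw [LinearMap.range_domRestrict]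
  omega

end Pool.Agent.R560.Stab
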