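import Pool.Agent.R560.Stab.Line

/-!
# Counting
-/

set_option autoImplicit false

namespace Pool.Agent.R560.Stab

open Finset Module

/-- the indicator function of `M = 1` -/
noncomputable def ind {X : Type*} (M : X → ZMod 2) : X → ℂ := fun x => if M x = 1 then 1 else 0

theorem ind_injective {X : Type*} : Function.Injective (ind : (X → ZMod 2) → X → ℂ) := by
  intro M M' h
  funext x
  have := congrFun h x
  simp only [ind] at this
  rcases zmod2_cases (M x) with h1 | h1 <;> rcases zmod2_cases (M' x) with h2 | h2 <;>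
    simp_all

/-- A subspace of dimension at most `r` contains at most `2 ^ r` vectors with entries `0`, `1`. -/
theorem card_ind_le {X : Type*} [Fintype X] [DecidableEq X] {r : ℕ} (v : Fin r → X → ℂ)
    (T : Finset (X → ZMod 2)) (hT : ∀ M ∈ T, ind M ∈ Submodule.span ℂ (Set.range v)) :
    T.card ≤ 2 ^ r := by
  classical
  let row : X → (Fin r → ℂ) := fun x i => v i x
  obtain ⟨b, hb1, hb2, hb3⟩ := exists_linearIndependent ℂ (Set.range row)
  have hbfin : b.Finite := (Set.finite_range row).subset hb1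
  have : Fintype b := hbfin.fintype
  have hcard : Fintype.card b ≤ r := by
    have := hb3.fintype_card_le_finrank
    rwa [Module.finrank_fintype_fun_eq_card, Fintype.card_fin] at this
  have hx : ∀ β : b, ∃ x, row x = β.1 := fun β => hb1 β.2
  choose ξ hξ using hx
  have hinj : Set.InjOn (fun (M : X → ZMod 2) (β : b) => M (ξ β)) (T : Set (X → ZMod 2)) := by
    intro M hM M' hM' h
    apply ind_injective
    have h1 := hT M hM
    have h2 := hT M' hM'
    have h3 := Submodule.sub_mem _ h1 h2
    rw [Submodule.mem_span_range_iff_exists_fun] at h3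
    obtain ⟨a, ha⟩ := h3
    have h4 : ∀ x, (ind M - ind M') x = a ⬝ᵥ row x := by
      intro x
      rw [← ha]
      simp [dotProduct, row]
    have h5 : ∀ w ∈ Submodule.span ℂ (Set.range row), a ⬝ᵥ w = 0 := by
      intro w hw
      rw [← hb2] at hw
      induction hw using Submodule.span_induction with
      | mem w hw =>
        have e : row (ξ ⟨w, hw⟩) = w := hξ ⟨w, hw⟩
        have e2 : M (ξ ⟨w, hw⟩) = M' (ξ ⟨w, hw⟩) := congrFun h ⟨w, hw⟩
        rw [← e, ← h4, Pi.sub_apply, ind, ind, e2, sub_self]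
      | zero => simp
      | add x y _ _ hx hy => rw [dotProduct_add, hx, hy, add_zero]
      | smul c x _ hx => rw [dotProduct_smul, hx, smul_zero]
    funext x
    have h6 := h5 (row x) (Submodule.subset_span ⟨x, rfl⟩)
    rw [← h4, Pi.sub_apply, sub_eq_zero] at h6
    exact h6
  calc T.card = (T.image (fun (M : X → ZMod 2) (β : b) => M (ξ β))).card :=
        (Finset.card_image_of_injOn hinj).symm
    _ ≤ Fintype.card (b → ZMod 2) := Finset.card_le_univ _
    _ = 2 ^ Fintype.card b := by rw [Fintype.card_fun, ZMod.card]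
    _ ≤ 2 ^ r := Nat.pow_le_pow_right (by norm_num) hcard

variable {κ : Type*} [Fintype κ] [DecidableEq κ]

/-- the possible eigenvalues -/
noncomputable def ev : Fin 4 → ℂ := ![1, -1, Complex.I, -Complex.I]

/-- lists of Pauli operators and eigenvalues -/
abbrev Code (κ : Type*) [Fintype κ] : Type _ :=
  Fin (Fintype.card κ) → (BV κ × BV κ) × Fin 4

def Good (c : Code κ) : Prop := LinearIndependent (ZMod 2) (fun i => (c i).1)

def InE (c : Code κ) (f : BV κ → ℂ) : Prop := ∀ i, W (c i).1 f = ev (c i).2 • f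

theorem line_of_good {c : Code κ} (hc : Good c) :
    ∃ v : BV κ → ℂ, ∀ f, InE c f → ∃ k : ℂ, f = k • v := by
  by_cases h : ∃ f, InE c f ∧ f ≠ 0
  · obtain ⟨v, hv, hv0⟩ := h
    refine ⟨v, fun f hf => one_dim hv0 ?_⟩
    have h1 : Submodule.span (ZMod 2) (Set.range (fun i => (c i).1)) ≤ J v f := by
      rw [Submodule.span_le]
      rintro _ ⟨i, rfl⟩
      exact ⟨ev (c i).2, hv i, hf i⟩
    have h2 := finrank_span_eq_card hc
    rw [Fintype.card_fin] at h2
    rw [← h2]
    exact Submodule.finrank_mono h1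
  · push Not at h
    exact ⟨0, fun f hf => ⟨0, by rw [h f hf, smul_zero]⟩⟩

theorem eigenvalue {p : BV κ × BV κ} {f : BV κ → ℂ} {k : ℂ} (h : W p f = k • f) :
    ∃ j : Fin 4, W p f = ev j • f := by
  by_cases hf : f = 0
  · subst hf
    refine ⟨0, ?_⟩
    rw [h, smul_zero, smul_zero]
  have h1 := W_W p p f
  have h2 : p + p = 0 := by
    ext i
    · exact zmod2_add_self _
    · exact zmod2_add_self _
  rw [h, W_smul, h, smul_smul, h2, W_zero] at h1
  have h3 : (k * k - sg (p.2 ⬝ᵥ p.1)) • f = 0 := by rw [sub_smul, h1, sub_self]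
  have h4 : k * k = sg (p.2 ⬝ᵥ p.1) := by
    rcases smul_eq_zero.mp h3 with h | h
    · exact sub_eq_zero.mp h
    · exact absurd h hf
  rcases zmod2_cases (p.2 ⬝ᵥ p.1) with h5 | h5
  · rw [h5, sg_zero] at h4
    rcases mul_self_eq_one_iff.mp h4 with rfl | rfl
    · exact ⟨0, by rw [h]; simp [ev]⟩
    · exact ⟨1, by rw [h]; simp [ev]⟩
  · rw [h5, sg_one] at h4
    have h6 : (k - Complex.I) * (k + Complex.I) = 0 := by
      linear_combination h4 - Complex.I_mul_I
    rcases mul_eq_zero.mp h6 with h7 | h7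
    · exact ⟨2, by rw [h, sub_eq_zero.mp h7]; simp [ev]⟩
    · exact ⟨3, by rw [h, eq_neg_of_add_eq_zero_left h7]; simp [ev]⟩

theorem exists_code {f : BV κ → ℂ} (hf : StabLike f) : ∃ c : Code κ, Good c ∧ InE c f := by
  have hG : Fintype.card κ ≤ finrank (ZMod 2) (G f) := by
    rcases hf with rfl | h
    · have : G (0 : BV κ → ℂ) = ⊤ := by
        rw [eq_top_iff]
        intro p _
        exact ⟨1, by funext x; simp [W]⟩
      rw [this, finrank_top, Module.finrank_prod, Module.finrank_fintype_fun_eq_card]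
      omega
    · exact h
  let B := Module.finBasis (ZMod 2) (G f)
  have hli : LinearIndependent (ZMod 2)
      (fun i : Fin (Fintype.card κ) => ((B (Fin.castLE hG i) : G f) : BV κ × BV κ)) := by
    have h1 : LinearIndependent (ZMod 2) (fun i => ((B i : G f) : BV κ × BV κ)) :=
      B.linearIndependent.map' (G f).subtype (by simp)
    exact h1.comp (Fin.castLE hG) (Fin.castLE_injective hG)
  have hk : ∀ i : Fin (Fintype.card κ), ∃ j : Fin 4,
      W ((B (Fin.castLE hG i) : G f) : BV κ × BV κ) f = ev j • f := by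
    intro i
    obtain ⟨k, hk⟩ := (B (Fin.castLE hG i)).2
    exact eigenvalue hk
  choose j hj using hk
  exact ⟨fun i => (((B (Fin.castLE hG i) : G f) : BV κ × BV κ), j i), hli, hj⟩

/-- If every `0`-`1` vector in `(ℂ²)^{⊗ n}` is a linear combination of `r` stabilizer-like
functions then `2 ^ n ≤ r (2 n² + 2 n + 1)`. -/
theorem count {r : ℕ} (H : ∀ M : BV κ → ZMod 2, ∃ s : Fin r → (BV κ → ℂ),
    (∀ i, StabLike (s i)) ∧ ind M ∈ Submodule.span ℂ (Set.range s)) :
    2 ^ Fintype.card κ ≤ r * (2 * Fintype.card κ ^ 2 + 2 * Fintype.card κ + 1) := by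
  classical
  choose s hs hspan using H
  choose c hc hin using fun (M : BV κ → ZMod 2) (i : Fin r) => exists_code (hs M i)
  have hv : ∀ c : Code κ, ∃ v : BV κ → ℂ, Good c → ∀ f, InE c f → ∃ k : ℂ, f = k • v := by
    intro c
    by_cases h : Good c
    · obtain ⟨v, hv⟩ := line_of_good h
      exact ⟨v, fun _ => hv⟩
    · exact ⟨0, fun h' => absurd h' h⟩
  choose v hv using hv
  have key : (Finset.univ : Finset (BV κ → ZMod 2)).card ≤
      2 ^ r * ((Finset.univ : Finset (BV κ → ZMod 2)).image c).card := by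
    apply Finset.card_le_mul_card_image
    intro a ha
    apply card_ind_le (fun i => v (a i))
    intro M hM
    have hMa : c M = a := (Finset.mem_filter.mp hM).2
    have h1 : Submodule.span ℂ (Set.range (s M)) ≤
        Submodule.span ℂ (Set.range (fun i => v (a i))) := by
      rw [Submodule.span_le]
      rintro _ ⟨i, rfl⟩
      obtain ⟨k, hk⟩ := hv (c M i) (hc M i) (s M i) (hin M i)
      rw [hk]
      apply Submodule.smul_mem
      apply Submodule.subset_span
      refine ⟨i, ?_⟩
      rw [← hMa]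
    exact h1 (hspan M)
  have hc1 : ((Finset.univ : Finset (BV κ → ZMod 2)).image c).card ≤
      ((2 ^ (2 * Fintype.card κ) * 4) ^ Fintype.card κ) ^ r := by
    refine (Finset.card_le_univ _).trans (le_of_eq ?_)
    rw [Fintype.card_fun, Fintype.card_fun, Fintype.card_prod, Fintype.card_prod, Fintype.card_fun,
      ZMod.card, Fintype.card_fin, Fintype.card_fin, Fintype.card_fin]
    congr 3
    rw [← pow_add]
    congr 1
    omega
  rw [Finset.card_univ, Fintype.card_fun, Fintype.card_fun, ZMod.card] at key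
  have h3 : 2 ^ (2 ^ Fintype.card κ) ≤
      2 ^ (r * (2 * Fintype.card κ ^ 2 + 2 * Fintype.card κ + 1)) := by
    refine key.trans ((Nat.mul_le_mul_left _ hc1).trans (le_of_eq ?_))
    have e4 : (4 : ℕ) = 2 ^ 2 := by norm_num
    rw [e4, ← pow_add, ← pow_mul, ← pow_mul, ← pow_add]
    congr 1
    ring
  exact (Nat.pow_le_pow_iff_right (by norm_num)).mp h3

end Pool.Agent.R560.Stab
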