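import Pool.Agent.R560.Stab.Gadget

/-!
# Evaluation of the operation on the copies of `v`
-/

set_option autoImplicit false

namespace Pool.Agent.R560.Stab

open Finset Module

theorem sg_sum {α : Type*} (s : Finset α) (f : α → ZMod 2) :
    sg (∑ i ∈ s, f i) = ∏ i ∈ s, sg (f i) := by
  classical
  induction s using Finset.induction_on with
  | empty => simp
  | insert i s hi ih => rw [Finset.sum_insert hi, Finset.prod_insert hi, sg_add, ih]

variable {a : ℕ} {ι : Type*} [Fintype ι] [DecidableEq ι]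

/-- the visible bits of one side -/
def sideOf (y : BV (Vis a)) (s : Bool) : Ix a := fun j => y (s, j)

theorem pair_side (y : BV (Vis a)) : pair (sideOf y false) (sideOf y true) = y := by
  funext ⟨s, j⟩
  cases s <;> rfl

/-- the one-hot vectors -/
def oneHot (y : BV (Vis a)) (α : Bool → ZMod 2) : BV (Bool × Ix a) :=
  fun p => if p.2 = sideOf y p.1 then α p.1 else 0

theorem oneHot_injective (y : BV (Vis a)) : Function.Injective (oneHot y) := by
  intro α β h
  funext s
  have := congrFun h (s, sideOf y s)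
  simpa [oneHot] using this

/-- the product of the gadgets, up to a constant -/
noncomputable def Kfun (y : BV (Vis a)) (e : BV (Bool × Ix a)) : ℂ :=
  ∏ p : Tri a, (if e (p.1, p.2.1) = 1 ∧ y (p.1, p.2.2) + p.2.1 p.2.2 = 1 then 0 else 1)

theorem Kfun_oneHot (y : BV (Vis a)) (α : Bool → ZMod 2) : Kfun y (oneHot y α) = 1 := by
  rw [Kfun]
  refine Finset.prod_eq_one (fun p _ => ?_)
  rw [if_neg]
  rintro ⟨h1, h2⟩
  simp only [oneHot] at h1
  split_ifs at h1 with h3
  · rw [h3] at h2
    simp only [sideOf, zmod2_add_self] at h2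
    exact absurd h2 (by decide)
  · exact absurd h1 (by decide)

theorem Kfun_zero (y : BV (Vis a)) (e : BV (Bool × Ix a)) (he : e ∉ Set.range (oneHot y)) :
    Kfun y e = 0 := by
  have h1 : ∃ p : Bool × Ix a, p.2 ≠ sideOf y p.1 ∧ e p ≠ 0 := by
    by_contra hcon
    push Not at hcon
    apply he
    refine ⟨fun s => e (s, sideOf y s), ?_⟩
    funext p
    simp only [oneHot]
    split_ifs with h
    · rw [← h]
    · exact (hcon p h).symm
  obtain ⟨⟨s, i⟩, hi, he1⟩ := h1
  obtain ⟨j, hj⟩ := Function.ne_iff.mp hi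
  rw [Kfun]
  refine Finset.prod_eq_zero (Finset.mem_univ ((s, i, j) : Tri a)) ?_
  rw [if_pos]
  refine ⟨(zmod2_cases _).resolve_left he1, ?_⟩
  simp only [sideOf] at hj
  change y (s, j) + i j = 1
  change i j ≠ y (s, j) at hj
  generalize y (s, j) = u at *
  generalize i j = w at *
  revert u w
  decide

theorem sum_over_gadgets (y : BV (Vis a)) (e : BV (Bool × Ix a)) :
    ∑ h : BV (Tri a), (∏ p : Tri a, sg (h p)) * ∏ p : Tri a,
      (gv (h p) * gv (h p) * gv (h p) * gv (h p + (y (p.1, p.2.2) + p.2.1 p.2.2)) *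
        gv (h p + e (p.1, p.2.1)) *
        gv (h p + (y (p.1, p.2.2) + p.2.1 p.2.2) + e (p.1, p.2.1) + 1)) =
      (-3 * (Real.sqrt 2 : ℂ)) ^ Fintype.card (Tri a) * Kfun y e := by
  have h1 := Finset.prod_univ_sum (fun _ : Tri a => (Finset.univ : Finset (ZMod 2)))
    (fun p b => sg b * (gv b * gv b * gv b * gv (b + (y (p.1, p.2.2) + p.2.1 p.2.2)) *
        gv (b + e (p.1, p.2.1)) *
        gv (b + (y (p.1, p.2.2) + p.2.1 p.2.2) + e (p.1, p.2.1) + 1)))
  rw [Fintype.piFinset_univ] at h1
  have h2 : ∀ h : BV (Tri a), (∏ p : Tri a, sg (h p)) * ∏ p : Tri a,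
      (gv (h p) * gv (h p) * gv (h p) * gv (h p + (y (p.1, p.2.2) + p.2.1 p.2.2)) *
        gv (h p + e (p.1, p.2.1)) *
        gv (h p + (y (p.1, p.2.2) + p.2.1 p.2.2) + e (p.1, p.2.1) + 1)) =
      ∏ p : Tri a, (sg (h p) * (gv (h p) * gv (h p) * gv (h p) *
        gv (h p + (y (p.1, p.2.2) + p.2.1 p.2.2)) *
        gv (h p + e (p.1, p.2.1)) *
        gv (h p + (y (p.1, p.2.2) + p.2.1 p.2.2) + e (p.1, p.2.1) + 1))) := by
    intro h
    rw [← Finset.prod_mul_distrib]
  rw [Finset.sum_congr rfl (fun h _ => h2 h), ← h1]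
  rw [Kfun, ← Finset.card_univ, ← Finset.prod_const, ← Finset.prod_mul_distrib]
  refine Finset.prod_congr rfl (fun p _ => ?_)
  exact gadget _ _

theorem sum_alpha (m : ZMod 2) :
    ∑ α : Bool → ZMod 2, sg (α true + α false + m * (α false * α true)) =
      -2 * (if m = 1 then 1 else 0) := by
  have huniv : (Finset.univ : Finset (ZMod 2)) = {0, 1} := by decide
  have h1 : ∑ α : Bool → ZMod 2, sg (α true + α false + m * (α false * α true)) =
      ∑ q : ZMod 2 × ZMod 2, sg (q.2 + q.1 + m * (q.1 * q.2)) :=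
    Fintype.sum_equiv (Equiv.boolArrowEquivProd (ZMod 2)) _ _ (fun α => rfl)
  rw [h1, Fintype.sum_prod_type, huniv]
  have h01 : (0 : ZMod 2) ≠ 1 := by decide
  simp only [Finset.sum_pair h01]
  have e1 : (1 : ZMod 2) + 1 = 0 := by decide
  rcases zmod2_cases m with rfl | rfl
  · simp [e1]
  · simp [e1]
    norm_num

/-- The constant. -/
noncomputable def cst (a : ℕ) : ℂ := -2 * (-3 * (Real.sqrt 2 : ℂ)) ^ Fintype.card (Tri a)

theorem cst_ne_zero (a : ℕ) : cst a ≠ 0 := by
  rw [cst]
  exact mul_ne_zero (by norm_num) (pow_ne_zero _ (mul_ne_zero (by norm_num) sqrt_two_ne))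

theorem oper_vfun {emb : Pos a → ι} (hemb : Function.Injective emb) (M : BV (Vis a) → ZMod 2) :
    oper emb M (vfun ι) = cst a • ind M := by
  funext y
  have h1 : oper emb M (vfun ι) y = ∑ e : BV (Bool × Ix a), ∑ h : BV (Tri a),
      sg (qM M (Sum.elim (Sum.elim h e) y)) *
        vfun ι (Amap emb (Sum.elim (Sum.elim h e) y) + Tvec emb) := by
    rw [oper, ← Fintype.sum_prod_type_right']
    refine Fintype.sum_equiv (Equiv.sumArrowEquivProdArrow _ _ _) _ _ (fun h => ?_)
    have : h = Sum.elim (h ∘ Sum.inl) (h ∘ Sum.inr) := by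
      funext k
      rcases k with k | k <;> rfl
    simp only [Equiv.sumArrowEquivProdArrow, Equiv.coe_fn_mk]
    rw [← this]
  have h2 : ∀ (e : BV (Bool × Ix a)) (h : BV (Tri a)),
      sg (qM M (Sum.elim (Sum.elim h e) y)) *
        vfun ι (Amap emb (Sum.elim (Sum.elim h e) y) + Tvec emb) =
      sg ((∑ p, e p) + ∑ i : Ix a, ∑ i' : Ix a, M (pair i i') * (e (false, i) * e (true, i'))) *
      ((∏ p : Tri a, sg (h p)) * ∏ p : Tri a,
      (gv (h p) * gv (h p) * gv (h p) * gv (h p + (y (p.1, p.2.2) + p.2.1 p.2.2)) *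
        gv (h p + e (p.1, p.2.1)) *
        gv (h p + (y (p.1, p.2.2) + p.2.1 p.2.2) + e (p.1, p.2.1) + 1))) := by
    intro e h
    rw [vfun_map hemb]
    have e1 : qM M (Sum.elim (Sum.elim h e) y) = (∑ p : Tri a, h p) + ((∑ p, e p) +
        ∑ i : Ix a, ∑ i' : Ix a, M (pair i i') * (e (false, i) * e (true, i'))) := by
      rw [← add_assoc]
      rfl
    rw [e1, sg_add, sg_sum, mul_comm (∏ p : Tri a, sg (h p)), mul_assoc]
    rfl
  have h3 : oper emb M (vfun ι) y = ∑ e : BV (Bool × Ix a),
      sg ((∑ p, e p) + ∑ i : Ix a, ∑ i' : Ix a, M (pair i i') * (e (false, i) * e (true, i'))) *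
      ((-3 * (Real.sqrt 2 : ℂ)) ^ Fintype.card (Tri a) * Kfun y e) := by
    rw [h1]
    refine Finset.sum_congr rfl (fun e _ => ?_)
    rw [Finset.sum_congr rfl (fun h _ => h2 e h), ← Finset.mul_sum, sum_over_gadgets]
  have h4 : ∑ α : Bool → ZMod 2, sg (α true + α false + M y * (α false * α true)) *
      (-3 * (Real.sqrt 2 : ℂ)) ^ Fintype.card (Tri a) = oper emb M (vfun ι) y := by
    rw [h3]
    refine Fintype.sum_of_injective (oneHot y) (oneHot_injective y) _ _ ?_ ?_
    · intro e he
      rw [Kfun_zero y e he, mul_zero, mul_zero]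
    · intro α
      rw [Kfun_oneHot, mul_one]
      congr 2
      congr 1
      · rw [Fintype.sum_prod_type]
        simp only [oneHot, Finset.sum_ite_eq', Finset.mem_univ, if_true, Fintype.sum_bool]
      · rw [Finset.sum_eq_single (sideOf y false)]
        · rw [Finset.sum_eq_single (sideOf y true)]
          · rw [pair_side]
            simp [oneHot]
          · intro i _ hi
            simp [oneHot, hi]
          · intro h
            exact absurd (Finset.mem_univ _) h
        · intro i _ hi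
          refine Finset.sum_eq_zero (fun i' _ => ?_)
          simp [oneHot, hi]
        · intro h
          exact absurd (Finset.mem_univ _) h
  rw [← h4, ← Finset.sum_mul, sum_alpha]
  simp only [cst, Pi.smul_apply, smul_eq_mul, ind]
  ring

/-- If `v ^ {⊗ ι}` with at least `12 a 2 ^ a` factors is a combination of `r` stabilizer-like
functions then `4 ^ a ≤ r (8 a² + 4 a + 1)`. -/
theorem lower {r : ℕ} (hcard : 12 * a * 2 ^ a ≤ Fintype.card ι) (α : Fin r → ℂ)
    (s : Fin r → BV ι → ℂ) (hs : ∀ i, StabLike (s i)) (h : vfun ι = ∑ i, α i • s i) :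
    4 ^ a ≤ r * (8 * a ^ 2 + 4 * a + 1) := by
  classical
  have hpos : Fintype.card (Pos a) ≤ Fintype.card ι := by
    refine le_trans (le_of_eq ?_) hcard
    simp only [Pos, Tri, Ix, Fintype.card_prod, Fintype.card_bool, Fintype.card_fun, ZMod.card,
      Fintype.card_fin]
    ring
  obtain ⟨emb⟩ := Function.Embedding.nonempty_of_card_le hpos
  have h1 := count (κ := Vis a) (r := r) (fun M => ?_)
  · have e1 : Fintype.card (Vis a) = 2 * a := by
      simp [Vis]
    rw [e1] at h1
    calc 4 ^ a = 2 ^ (2 * a) := by rw [pow_mul]; norm_num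
      _ ≤ _ := h1
      _ = _ := by ring
  · refine ⟨fun i => oper emb M (s i), fun i => stabLike_oper M (hs i), ?_⟩
    have h2 := oper_vfun emb.injective M
    rw [h, oper_sum] at h2
    have h3 : ind M = (cst a)⁻¹ • ∑ i, α i • oper emb M (s i) := by
      rw [h2, smul_smul, inv_mul_cancel₀ (cst_ne_zero a), one_smul]
    rw [h3]
    refine Submodule.smul_mem _ _ (Submodule.sum_mem _ (fun i _ => Submodule.smul_mem _ _ ?_))
    exact Submodule.subset_span ⟨i, rfl⟩

end Pool.Agent.R560.Stab
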