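import Pool.Agent.R560.Stab.Count

/-!
# From copies of `e₀ + √2 e₁` to arbitrary `0`-`1` vectors
-/

set_option autoImplicit false

namespace Pool.Agent.R560.Stab

open Finset Module

section General

variable {ι κ η : Type*} [Fintype ι] [Fintype κ] [Fintype η]

theorem StabLike.comp_linear [DecidableEq ι] [DecidableEq κ] {f : BV ι → ℂ} (hf : StabLike f)
    (A : BV κ →ₗ[ZMod 2] BV ι) : StabLike (fun x : BV κ => f (A x)) := by
  have h := hf.comp (LinearMap.toMatrix' A)
  have e : (fun x : BV κ => f ((LinearMap.toMatrix' A).mulVec x)) = fun x => f (A x) := by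
    funext x
    rw [LinearMap.toMatrix'_mulVec]
  rwa [e] at h

theorem StabLike.mul_sg' [DecidableEq ι] {f : BV ι → ℂ} (hf : StabLike f) (q : BV ι → ZMod 2)
    (b : BV ι →ₗ[ZMod 2] BV ι →ₗ[ZMod 2] ZMod 2) (hq : ∀ x y, q (x + y) = q x + q y + b x y) :
    StabLike (fun x => sg (q x) * f x) := by
  refine hf.mul_sg q (LinearMap.toMatrix₂' (ZMod 2) b) (fun x y => ?_)
  rw [hq, dotProduct_comm, ← Matrix.toLinearMap₂'_apply', Matrix.toLinearMap₂'_toMatrix']

/-- The Clifford type operation used below. -/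
theorem StabLike.oper [DecidableEq ι] [DecidableEq κ] [DecidableEq η] {f : BV ι → ℂ}
    (hf : StabLike f) (A : BV (η ⊕ κ) →ₗ[ZMod 2] BV ι) (T : BV ι) (q : BV (η ⊕ κ) → ZMod 2)
    (b : BV (η ⊕ κ) →ₗ[ZMod 2] BV (η ⊕ κ) →ₗ[ZMod 2] ZMod 2)
    (hq : ∀ x y, q (x + y) = q x + q y + b x y) :
    StabLike (fun y : BV κ => ∑ h : BV η, sg (q (Sum.elim h y)) * f (A (Sum.elim h y) + T)) :=
  (((hf.translate T).comp_linear A).mul_sg' q b hq).sum

end General

/-- the entries of `v = e₀ + √2 e₁` -/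
noncomputable def gv (b : ZMod 2) : ℂ := if b = 0 then 1 else (Real.sqrt 2 : ℂ)

theorem gv_zero : gv 0 = 1 := by simp [gv]
theorem gv_one : gv 1 = (Real.sqrt 2 : ℂ) := by simp [gv]

theorem sqrt_two_sq : (Real.sqrt 2 : ℂ) ^ 2 = 2 := by
  rw [← Complex.ofReal_pow, Real.sq_sqrt (by norm_num)]
  norm_num

theorem sqrt_two_ne : (Real.sqrt 2 : ℂ) ≠ 0 := by
  intro h
  have := sqrt_two_sq
  rw [h] at this
  norm_num at this

/-- the gadget with six copies of `v` -/
theorem gadget (t e : ZMod 2) :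
    ∑ h : ZMod 2, sg h * (gv h * gv h * gv h * gv (h + t) * gv (h + e) * gv (h + t + e + 1)) =
      -3 * (Real.sqrt 2 : ℂ) * (if e = 1 ∧ t = 1 then 0 else 1) := by
  have h2 := sqrt_two_sq
  have e1 : (1 : ZMod 2) + 1 = 0 := by decide
  have huniv : (Finset.univ : Finset (ZMod 2)) = {0, 1} := by decide
  rw [huniv, Finset.sum_pair (by decide)]
  rcases zmod2_cases t with rfl | rfl <;> rcases zmod2_cases e with rfl | rfl
  · simp only [add_zero, zero_add, e1, gv_zero, gv_one, sg_zero, sg_one]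
    simp only [zero_ne_one, false_and, if_false]
    linear_combination (-(Real.sqrt 2 : ℂ) * ((Real.sqrt 2 : ℂ) ^ 2 + 2)) * h2
  · simp only [add_zero, zero_add, e1, gv_zero, gv_one, sg_zero, sg_one]
    simp only [zero_ne_one, and_false, if_false]
    linear_combination (-(Real.sqrt 2 : ℂ) * ((Real.sqrt 2 : ℂ) ^ 2 + 2)) * h2
  · simp only [add_zero, zero_add, e1, gv_zero, gv_one, sg_zero, sg_one]
    simp only [zero_ne_one, false_and, if_false]
    linear_combination (-(Real.sqrt 2 : ℂ) * ((Real.sqrt 2 : ℂ) ^ 2 + 2)) * h2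
  · simp only [add_zero, zero_add, e1, gv_zero, gv_one, sg_zero, sg_one]
    simp only [and_self, if_true]
    ring

section Construction

variable (a : ℕ)

abbrev Ix := Fin a → ZMod 2
abbrev Tri := Bool × Ix a × Fin a
abbrev Hid := Tri a ⊕ (Bool × Ix a)
abbrev Vis := Bool × Fin a
abbrev Pos := Tri a × Fin 6

variable {a}

/-- the hidden variable of a gadget -/
def hV (p : Tri a) : BV (Hid a ⊕ Vis a) →ₗ[ZMod 2] ZMod 2 := LinearMap.proj (Sum.inl (Sum.inl p))
/-- the unary (one-hot) variables -/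
def eV (p : Bool × Ix a) : BV (Hid a ⊕ Vis a) →ₗ[ZMod 2] ZMod 2 :=
  LinearMap.proj (Sum.inl (Sum.inr p))
/-- the visible variables -/
def yV (p : Vis a) : BV (Hid a ⊕ Vis a) →ₗ[ZMod 2] ZMod 2 := LinearMap.proj (Sum.inr p)

def lin (p : Pos a) : BV (Hid a ⊕ Vis a) →ₗ[ZMod 2] ZMod 2 :=
  ![hV p.1, hV p.1, hV p.1, hV p.1 + yV (p.1.1, p.1.2.2), hV p.1 + eV (p.1.1, p.1.2.1),
    hV p.1 + yV (p.1.1, p.1.2.2) + eV (p.1.1, p.1.2.1)] p.2

def shift (p : Pos a) : ZMod 2 :=
  ![0, 0, 0, p.1.2.1 p.1.2.2, 0, p.1.2.1 p.1.2.2 + 1] p.2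

variable {ι : Type*} [Fintype ι] [DecidableEq ι]

noncomputable def Amap (emb : Pos a → ι) : BV (Hid a ⊕ Vis a) →ₗ[ZMod 2] BV ι :=
  LinearMap.pi (Function.extend emb lin 0)

noncomputable def Tvec (emb : Pos a → ι) : BV ι := Function.extend emb shift 0

/-- `v ^ {⊗ ι}` -/
noncomputable def vfun (ι : Type*) [Fintype ι] : BV ι → ℂ := fun x => ∏ k, gv (x k)

theorem vfun_map {emb : Pos a → ι} (hemb : Function.Injective emb) (x : BV (Hid a ⊕ Vis a)) :
    vfun ι (Amap emb x + Tvec emb) = ∏ p : Tri a,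
      (gv (hV p x) * gv (hV p x) * gv (hV p x) * gv (hV p x + (yV (p.1, p.2.2) x + p.2.1 p.2.2)) *
        gv (hV p x + eV (p.1, p.2.1) x) *
        gv (hV p x + (yV (p.1, p.2.2) x + p.2.1 p.2.2) + eV (p.1, p.2.1) x + 1)) := by
  have h1 : ∏ p : Pos a, gv (lin p x + shift p) = vfun ι (Amap emb x + Tvec emb) := by
    refine Fintype.prod_of_injective emb hemb _ _ ?_ ?_
    · intro k hk
      have e1 : Amap emb x k = 0 := by
        simp only [Amap, LinearMap.pi_apply]
        rw [Function.extend_apply' _ _ _ (by simpa using hk)]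
        rfl
      have e2 : Tvec emb k = 0 := by
        simp only [Tvec]
        rw [Function.extend_apply' _ _ _ (by simpa using hk)]
        rfl
      rw [Pi.add_apply, e1, e2, add_zero, gv_zero]
    · intro p
      have e1 : Amap emb x (emb p) = lin p x := by
        simp only [Amap, LinearMap.pi_apply]
        rw [hemb.extend_apply]
      have e2 : Tvec emb (emb p) = shift p := by
        simp only [Tvec]
        rw [hemb.extend_apply]
      rw [Pi.add_apply, e1, e2]
  rw [← h1, Fintype.prod_prod_type]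
  refine Finset.prod_congr rfl (fun p _ => ?_)
  rw [Fin.prod_univ_six]
  simp only [lin, shift, Matrix.cons_val_zero, Matrix.cons_val_one, Matrix.cons_val,
    LinearMap.add_apply, add_zero]
  have e1 : ∀ u w z : ZMod 2, u + w + z = u + (w + z) := fun u w z => add_assoc _ _ _
  have e2 : hV p x + yV (p.1, p.2.2) x + eV (p.1, p.2.1) x + (p.2.1 p.2.2 + 1) =
      hV p x + (yV (p.1, p.2.2) x + p.2.1 p.2.2) + eV (p.1, p.2.1) x + 1 := by ring
  rw [e2, e1 (hV p x) (yV (p.1, p.2.2) x) (p.2.1 p.2.2)]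

/-- the pair of index vectors as one bit vector -/
def pair (i i' : Ix a) : BV (Vis a) := fun p => if p.1 then i' p.2 else i p.2

/-- the quadratic form -/
def qM (M : BV (Vis a) → ZMod 2) (x : BV (Hid a ⊕ Vis a)) : ZMod 2 :=
  (∑ p : Tri a, hV p x) + (∑ p : Bool × Ix a, eV p x) +
    ∑ i : Ix a, ∑ i' : Ix a, M (pair i i') * (eV (false, i) x * eV (true, i') x)

def bM (M : BV (Vis a) → ZMod 2) :
    BV (Hid a ⊕ Vis a) →ₗ[ZMod 2] BV (Hid a ⊕ Vis a) →ₗ[ZMod 2] ZMod 2 :=
  LinearMap.mk₂ (ZMod 2) (fun x y => ∑ i : Ix a, ∑ i' : Ix a,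
    M (pair i i') * (eV (false, i) x * eV (true, i') y + eV (false, i) y * eV (true, i') x))
    (by
      intro x y z
      simp only [map_add, ← Finset.sum_add_distrib]
      exact Finset.sum_congr rfl (fun _ _ => Finset.sum_congr rfl (fun _ _ => by ring)))
    (by
      intro c x y
      simp only [map_smul, smul_eq_mul, Finset.mul_sum]
      exact Finset.sum_congr rfl (fun _ _ => Finset.sum_congr rfl (fun _ _ => by ring)))
    (by
      intro x y z
      simp only [map_add, ← Finset.sum_add_distrib]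
      exact Finset.sum_congr rfl (fun _ _ => Finset.sum_congr rfl (fun _ _ => by ring)))
    (by
      intro c x y
      simp only [map_smul, smul_eq_mul, Finset.mul_sum]
      exact Finset.sum_congr rfl (fun _ _ => Finset.sum_congr rfl (fun _ _ => by ring)))

theorem qM_add (M : BV (Vis a) → ZMod 2) (x y : BV (Hid a ⊕ Vis a)) :
    qM M (x + y) = qM M x + qM M y + bM M x y := by
  simp only [qM, bM, LinearMap.mk₂_apply, map_add, Finset.sum_add_distrib, mul_add, add_mul]
  ring

/-- the operation -/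
noncomputable def oper (emb : Pos a → ι) (M : BV (Vis a) → ZMod 2) (f : BV ι → ℂ) :
    BV (Vis a) → ℂ :=
  fun y => ∑ h : BV (Hid a), sg (qM M (Sum.elim h y)) * f (Amap emb (Sum.elim h y) + Tvec emb)

theorem stabLike_oper {emb : Pos a → ι} (M : BV (Vis a) → ZMod 2) {f : BV ι → ℂ}
    (hf : StabLike f) : StabLike (oper emb M f) :=
  hf.oper (Amap emb) (Tvec emb) (qM M) (bM M) (qM_add M)

theorem oper_sum {emb : Pos a → ι} (M : BV (Vis a) → ZMod 2) {r : ℕ} (α : Fin r → ℂ)
    (s : Fin r → BV ι → ℂ) :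
    oper emb M (∑ i, α i • s i) = ∑ i, α i • oper emb M (s i) := by
  funext y
  simp only [oper, Finset.sum_apply, Pi.smul_apply, smul_eq_mul, Finset.mul_sum]
  rw [Finset.sum_comm]
  exact Finset.sum_congr rfl (fun _ _ => Finset.sum_congr rfl (fun _ _ => by ring))

end Construction

end Pool.Agent.R560.Stab
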