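import Pool.Agent.R560.Stab.Closure

/-!
# Enough common Pauli symmetries determine a function up to a factor
-/

set_option autoImplicit false

namespace Pool.Agent.R560.Stab

open Finset Module

variable {κ : Type*} [Fintype κ] [DecidableEq κ]

noncomputable def Wl (p : BV κ × BV κ) : (BV κ → ℂ) →ₗ[ℂ] (BV κ → ℂ) where
  toFun := W p
  map_add' := W_add p
  map_smul' := W_smul p

theorem sum_sg (b : BV κ) :
    ∑ x : BV κ, sg (b ⬝ᵥ x) = if b = 0 then (2 : ℂ) ^ Fintype.card κ else 0 := by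
  by_cases hb : b = 0
  · subst hb
    simp
  · rw [if_neg hb]
    obtain ⟨j, hj⟩ : ∃ j, b j ≠ 0 := by
      by_contra hcon
      push Not at hcon
      exact hb (funext hcon)
    have hj1 : b j = 1 := (zmod2_cases (b j)).resolve_left hj
    obtain ⟨e, he⟩ : ∃ e : BV κ, b ⬝ᵥ e = 1 :=
      ⟨Pi.single j 1, by rw [dotProduct_single, hj1, mul_one]⟩
    have h1 : ∑ x : BV κ, sg (b ⬝ᵥ x) = ∑ x : BV κ, sg (b ⬝ᵥ (x + e)) :=
      (Fintype.sum_equiv (Equiv.addRight e) (fun x : BV κ => sg (b ⬝ᵥ (x + e)))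
        (fun x => sg (b ⬝ᵥ x)) (fun x => rfl)).symm
    have h2 : ∀ x : BV κ, sg (b ⬝ᵥ (x + e)) = - sg (b ⬝ᵥ x) := by
      intro x
      rw [dotProduct_add, he, sg_add, sg_one, mul_neg, mul_one]
    simp only [h2, Finset.sum_neg_distrib] at h1
    have h3 : (2 : ℂ) * ∑ x : BV κ, sg (b ⬝ᵥ x) = 0 := by linear_combination h1
    simpa using h3

theorem trace_W (p : BV κ × BV κ) :
    LinearMap.trace ℂ (BV κ → ℂ) (Wl p) = if p = 0 then (2 : ℂ) ^ Fintype.card κ else 0 := by
  classical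
  rw [LinearMap.trace_eq_matrix_trace ℂ (Pi.basisFun ℂ (BV κ)), Matrix.trace]
  have h1 : ∀ x : BV κ, (LinearMap.toMatrix (Pi.basisFun ℂ (BV κ)) (Pi.basisFun ℂ (BV κ))
      (Wl p)).diag x = if p.1 = 0 then sg (p.2 ⬝ᵥ x) else 0 := by
    intro x
    rw [Matrix.diag_apply, LinearMap.toMatrix_apply]
    simp only [Pi.basisFun_apply, Pi.basisFun_repr]
    change sg (p.2 ⬝ᵥ x) * (Pi.single x (1 : ℂ) : BV κ → ℂ) (x + p.1) = _
    by_cases hp : p.1 = 0
    · rw [if_pos hp, hp, add_zero, Pi.single_eq_same, mul_one]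
    · rw [if_neg hp, Pi.single_eq_of_ne, mul_zero]
      intro h
      exact hp (by simpa using h)
  rw [Finset.sum_congr rfl (fun x _ => h1 x)]
  by_cases hp : p.1 = 0
  · simp only [hp, if_true, sum_sg]
    by_cases hp2 : p.2 = 0
    · rw [if_pos hp2, if_pos (Prod.ext hp hp2)]
    · rw [if_neg hp2, if_neg]
      rintro rfl
      exact hp2 rfl
  · simp only [hp, if_false, Finset.sum_const_zero]
    rw [if_neg]
    rintro rfl
    exact hp rfl

/-- the Pauli operators for which `f` and `g` are eigenvectors with the same eigenvalue -/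
noncomputable def J (f g : BV κ → ℂ) : Submodule (ZMod 2) (BV κ × BV κ) where
  carrier := {p | ∃ c : ℂ, W p f = c • f ∧ W p g = c • g}
  add_mem' := by
    rintro p q ⟨c, hc, hd⟩ ⟨c', hc', hd'⟩
    refine ⟨sg (q.2 ⬝ᵥ p.1) * (c' * c), ?_, ?_⟩
    · have h1 := W_W p q f
      rw [hc', W_smul, hc] at h1
      have h2 : W (p + q) f = sg (q.2 ⬝ᵥ p.1) • (sg (q.2 ⬝ᵥ p.1) • W (p + q) f) := by
        rw [smul_smul, sg_mul_self, one_smul]
      rw [h2, ← h1, smul_smul, smul_smul, mul_assoc]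
    · have h1 := W_W p q g
      rw [hd', W_smul, hd] at h1
      have h2 : W (p + q) g = sg (q.2 ⬝ᵥ p.1) • (sg (q.2 ⬝ᵥ p.1) • W (p + q) g) := by
        rw [smul_smul, sg_mul_self, one_smul]
      rw [h2, ← h1, smul_smul, smul_smul, mul_assoc]
  zero_mem' := ⟨1, by rw [W_zero, one_smul], by rw [W_zero, one_smul]⟩
  smul_mem' := by
    rintro a p ⟨c, hc, hd⟩
    rcases zmod2_cases a with rfl | rfl
    · exact ⟨1, by rw [zero_smul, W_zero, one_smul], by rw [zero_smul, W_zero, one_smul]⟩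
    · exact ⟨c, by rw [one_smul, hc], by rw [one_smul, hd]⟩

theorem one_dim {f g : BV κ → ℂ} (hf : f ≠ 0)
    (h : Fintype.card κ ≤ finrank (ZMod 2) (J f g)) : ∃ c : ℂ, g = c • f := by
  classical
  have huniq : ∀ {p : BV κ × BV κ} {c c' : ℂ}, W p f = c • f → W p f = c' • f → c = c' := by
    intro p c c' h1 h2
    have h3 : (c - c') • f = 0 := by rw [sub_smul, ← h1, ← h2, sub_self]
    rcases smul_eq_zero.mp h3 with h4 | h4
    · exact sub_eq_zero.mp h4
    · exact absurd h4 hf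
  choose c hcf hcg using (fun p : J f g => (show ∃ c : ℂ, W p.1 f = c • f ∧ W p.1 g = c • g
    from p.2))
  have hc0 : ∀ p, c p ≠ 0 := by
    intro p h0
    have := hcf p
    rw [h0, zero_smul] at this
    exact hf (W_eq_zero this)
  have hmul : ∀ p q : J f g, c p * c q = sg (q.1.2 ⬝ᵥ p.1.1) * c (p + q) := by
    intro p q
    have h1 := W_W p.1 q.1 f
    rw [hcf q, W_smul, hcf p, smul_smul] at h1
    have h2 := hcf (p + q)
    have h3 : ((p + q : J f g) : BV κ × BV κ) = p.1 + q.1 := rfl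
    rw [h3] at h2
    rw [h2, smul_smul] at h1
    have h4 : (c q * c p - sg (q.1.2 ⬝ᵥ p.1.1) * c (p + q)) • f = 0 := by
      rw [sub_smul, h1, sub_self]
    rcases smul_eq_zero.mp h4 with h5 | h5
    · linear_combination h5
    · exact absurd h5 hf
  have hone : c 0 = 1 := huniq (hcf 0) (by
    have : ((0 : J f g) : BV κ × BV κ) = 0 := rfl
    rw [this, W_zero, one_smul])
  set N : ℂ := (Fintype.card (J f g) : ℂ) with hN
  have hN0 : N ≠ 0 := by
    rw [hN]
    exact_mod_cast Fintype.card_ne_zero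
  let P : (BV κ → ℂ) →ₗ[ℂ] (BV κ → ℂ) := N⁻¹ • ∑ p : J f g, (c p)⁻¹ • Wl p.1
  have hPf : ∀ φ : BV κ → ℂ, (∀ p, W p.1 φ = c p • φ) → P φ = φ := by
    intro φ hφ
    have : P φ = N⁻¹ • ∑ p : J f g, (c p)⁻¹ • W p.1 φ := by
      simp only [P, LinearMap.smul_apply, LinearMap.sum_apply]
      rfl
    rw [this]
    have h1 : ∀ p, (c p)⁻¹ • W p.1 φ = φ := by
      intro p
      rw [hφ p, smul_smul, inv_mul_cancel₀ (hc0 p), one_smul]
    rw [Finset.sum_congr rfl (fun p _ => h1 p), Finset.sum_const, Finset.card_univ,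
      ← Nat.cast_smul_eq_nsmul ℂ, ← hN, smul_smul, inv_mul_cancel₀ hN0, one_smul]
  have hWP : ∀ (q : J f g) (φ : BV κ → ℂ), W q.1 (P φ) = c q • P φ := by
    intro q φ
    have h0 : P φ = N⁻¹ • ∑ p : J f g, (c p)⁻¹ • W p.1 φ := by
      simp only [P, LinearMap.smul_apply, LinearMap.sum_apply]
      rfl
    have h1 : W q.1 (P φ) = N⁻¹ • ∑ p : J f g, (c p)⁻¹ • W q.1 (W p.1 φ) := by
      change Wl q.1 (P φ) = _
      rw [h0, map_smul, map_sum]
      simp only [map_smul]
      rfl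
    have h2 : ∀ p : J f g, (c p)⁻¹ • W q.1 (W p.1 φ) =
        c q • ((c (q + p))⁻¹ • W (q + p : J f g).1 φ) := by
      intro p
      rw [W_W, smul_smul, smul_smul]
      have h3 := hmul q p
      have h4 := hc0 p
      have h5 := hc0 q
      have h6 := hc0 (q + p)
      congr 1
      field_simp
      rw [mul_comm (c p) (c q), h3]
    rw [h1, h0, Finset.sum_congr rfl (fun p _ => h2 p), ← Finset.smul_sum, smul_comm]
    congr 2
    exact Fintype.sum_equiv (Equiv.addLeft q) _ _ (fun p => rfl)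
  have hidem : IsIdempotentElem P := by
    refine LinearMap.ext (fun φ => ?_)
    exact hPf (P φ) (fun q => hWP q φ)
  have htr : LinearMap.trace ℂ _ P = N⁻¹ * 2 ^ Fintype.card κ := by
    simp only [P, map_smul, map_sum, trace_W, smul_eq_mul]
    congr 1
    rw [Finset.sum_eq_single (0 : J f g)]
    · have : ((0 : J f g) : BV κ × BV κ) = 0 := rfl
      rw [hone, this, if_pos rfl, inv_one, one_mul]
    · intro p _ hp
      rw [if_neg, mul_zero]
      intro h0
      exact hp (Subtype.ext h0)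
    · intro h0
      exact absurd (Finset.mem_univ _) h0
  have hproj := (LinearMap.IsIdempotentElem.isProj_range _ hidem).trace
  rw [htr] at hproj
  have hcard : (finrank ℂ (LinearMap.range P)) * Fintype.card (J f g) = 2 ^ Fintype.card κ := by
    have : ((finrank ℂ (LinearMap.range P) * Fintype.card (J f g) : ℕ) : ℂ) =
        ((2 ^ Fintype.card κ : ℕ) : ℂ) := by
      push_cast
      rw [← hproj, ← hN]
      field_simp
    exact_mod_cast this
  have hJ : 2 ^ Fintype.card κ ≤ Fintype.card (J f g) := by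
    rw [Module.card_eq_pow_finrank (K := ZMod 2) (V := J f g), ZMod.card]
    exact Nat.pow_le_pow_right (by norm_num) h
  have hfin : finrank ℂ (LinearMap.range P) ≤ 1 := by
    by_contra hcon
    push Not at hcon
    have h2 : 2 * 2 ^ Fintype.card κ ≤ finrank ℂ (LinearMap.range P) * Fintype.card (J f g) :=
      Nat.mul_le_mul hcon hJ
    have h3 : 0 < 2 ^ Fintype.card κ := by positivity
    omega
  obtain ⟨v, hv⟩ := finrank_le_one_iff.mp hfin
  obtain ⟨a, ha⟩ := hv ⟨f, ⟨f, hPf f hcf⟩⟩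
  obtain ⟨b, hb⟩ := hv ⟨g, ⟨g, hPf g hcg⟩⟩
  have ha' : a • (v : BV κ → ℂ) = f := congrArg Subtype.val ha
  have hb' : b • (v : BV κ → ℂ) = g := congrArg Subtype.val hb
  have ha0 : a ≠ 0 := by
    rintro rfl
    rw [zero_smul] at ha'
    exact hf ha'.symm
  refine ⟨b * a⁻¹, ?_⟩
  rw [← ha', ← hb', smul_smul, mul_assoc, inv_mul_cancel₀ ha0, mul_one]

end Pool.Agent.R560.Stab
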