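import Mathlib

/-!
# Pauli operators acting on functions of bit vectors and stabilizer-like functions
-/

set_option autoImplicit false

namespace Pool.Agent.R560.Stab

open Finset Module

/-- bit vectors -/
abbrev BV (ι : Type*) := ι → ZMod 2

/-- `(-1) ^ a` -/
noncomputable def sg (a : ZMod 2) : ℂ := if a = 0 then 1 else -1

@[simp] theorem sg_zero : sg 0 = 1 := by simp [sg]
@[simp] theorem sg_one : sg 1 = -1 := by simp [sg]

theorem zmod2_cases (a : ZMod 2) : a = 0 ∨ a = 1 := by revert a; decide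

theorem zmod2_add_self (a : ZMod 2) : a + a = 0 := by revert a; decide

theorem bv_add_self {ι : Type*} (x : BV ι) : x + x = 0 := by
  funext i; exact zmod2_add_self _

theorem bv_add_add_cancel {ι : Type*} (x y : BV ι) : x + y + y = x := by
  rw [add_assoc, bv_add_self, add_zero]

theorem sg_add (a b : ZMod 2) : sg (a + b) = sg a * sg b := by
  rcases zmod2_cases a with rfl | rfl <;> rcases zmod2_cases b with rfl | rfl <;>
    simp [zmod2_add_self]

theorem sg_mul_self (a : ZMod 2) : sg a * sg a = 1 := by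
  rcases zmod2_cases a with rfl | rfl <;> simp

theorem sg_ne_zero (a : ZMod 2) : sg a ≠ 0 := by
  rcases zmod2_cases a with rfl | rfl <;> simp

theorem sg_injective : Function.Injective sg := by
  intro a b h
  rcases zmod2_cases a with rfl | rfl <;> rcases zmod2_cases b with rfl | rfl
  · rfl
  · exfalso; simp at h; norm_num [Complex.ext_iff] at h
  · exfalso; simp at h; norm_num [Complex.ext_iff] at h
  · rfl

variable {ι κ η : Type*} [Fintype ι] [Fintype κ] [Fintype η]

/-- The Pauli operator `Z ^ p.2 X ^ p.1`. -/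
noncomputable def W (p : BV ι × BV ι) (f : BV ι → ℂ) : BV ι → ℂ :=
  fun x => sg (p.2 ⬝ᵥ x) * f (x + p.1)

theorem W_zero (f : BV ι → ℂ) : W 0 f = f := by
  funext x; simp [W]

theorem W_W (p q : BV ι × BV ι) (f : BV ι → ℂ) :
    W p (W q f) = sg (q.2 ⬝ᵥ p.1) • W (p + q) f := by
  funext x
  simp only [W, Pi.smul_apply, smul_eq_mul, Prod.fst_add, Prod.snd_add, add_dotProduct,
    dotProduct_add, sg_add, add_assoc]
  ring

theorem W_smul (p : BV ι × BV ι) (c : ℂ) (f : BV ι → ℂ) : W p (c • f) = c • W p f := by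
  funext x
  simp only [W, Pi.smul_apply, smul_eq_mul]
  ring

theorem W_add (p : BV ι × BV ι) (f g : BV ι → ℂ) : W p (f + g) = W p f + W p g := by
  funext x
  simp only [W, Pi.add_apply]
  ring

theorem W_eq_zero {p : BV ι × BV ι} {f : BV ι → ℂ} (h : W p f = 0) : f = 0 := by
  have h1 := W_W p p f
  rw [h] at h1
  have h2 : p + p = 0 := by
    ext i
    · exact zmod2_add_self _
    · exact zmod2_add_self _
  rw [h2, W_zero] at h1
  have h3 : W p (0 : BV ι → ℂ) = 0 := by funext x; simp [W]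
  rw [h3] at h1
  rcases smul_eq_zero.mp h1.symm with h4 | h4
  · exact absurd h4 (sg_ne_zero _)
  · exact h4

/-- the group of Pauli operators having `f` as an eigenvector -/
noncomputable def G (f : BV ι → ℂ) : Submodule (ZMod 2) (BV ι × BV ι) where
  carrier := {p | ∃ c : ℂ, W p f = c • f}
  add_mem' := by
    rintro p q ⟨c, hc⟩ ⟨c', hc'⟩
    refine ⟨sg (q.2 ⬝ᵥ p.1) * (c' * c), ?_⟩
    have h1 := W_W p q f
    rw [hc', W_smul, hc] at h1
    have h2 : W (p + q) f = sg (q.2 ⬝ᵥ p.1) • (sg (q.2 ⬝ᵥ p.1) • W (p + q) f) := by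
      rw [smul_smul, sg_mul_self, one_smul]
    rw [h2, ← h1, smul_smul, smul_smul, mul_assoc]
  zero_mem' := ⟨1, by rw [W_zero, one_smul]⟩
  smul_mem' := by
    rintro a p ⟨c, hc⟩
    rcases zmod2_cases a with rfl | rfl
    · exact ⟨1, by rw [zero_smul, W_zero, one_smul]⟩
    · exact ⟨c, by rw [one_smul, hc]⟩

theorem mem_G {f : BV ι → ℂ} {p : BV ι × BV ι} : p ∈ G f ↔ ∃ c : ℂ, W p f = c • f := Iff.rfl

/-- Pauli operators with a common eigenvector commute. -/
theorem G_comm {f : BV ι → ℂ} (hf : f ≠ 0) {p q : BV ι × BV ι} (hp : p ∈ G f) (hq : q ∈ G f) :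
    q.2 ⬝ᵥ p.1 + p.2 ⬝ᵥ q.1 = 0 := by
  obtain ⟨c, hc⟩ := hp
  obtain ⟨c', hc'⟩ := hq
  have h1 := W_W p q f
  have h2 := W_W q p f
  rw [hc', W_smul, hc, smul_smul] at h1
  rw [hc, W_smul, hc', smul_smul, add_comm q p, mul_comm, h1] at h2
  have h3 : W (p + q) f ≠ 0 := fun h => hf (W_eq_zero h)
  have h4 : sg (q.2 ⬝ᵥ p.1) = sg (p.2 ⬝ᵥ q.1) := by
    by_contra hne
    have : (sg (q.2 ⬝ᵥ p.1) - sg (p.2 ⬝ᵥ q.1)) • W (p + q) f = 0 := by
      rw [sub_smul, h2, sub_self]
    rcases smul_eq_zero.mp this with h | h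
    · exact hne (sub_eq_zero.mp h)
    · exact h3 h
  rw [sg_injective h4, zmod2_add_self]

/-- `f` is a multiple of a stabilizer state: it is zero or an eigenvector of many Pauli
operators. -/
def StabLike (f : BV ι → ℂ) : Prop := f = 0 ∨ Fintype.card ι ≤ finrank (ZMod 2) (G f)

omit [Fintype ι] in
theorem orth_le [Fintype ι] [DecidableEq ι] (X Y : Submodule (ZMod 2) (BV ι))
    (h : ∀ x ∈ X, ∀ y ∈ Y, y ⬝ᵥ x = 0) :
    finrank (ZMod 2) X + finrank (ZMod 2) Y ≤ Fintype.card ι := by
  have h1 : finrank (ZMod 2) X + finrank (ZMod 2) X.dualAnnihilator = Fintype.card ι := by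
    rw [← Module.finrank_fintype_fun_eq_card (ZMod 2) (η := ι)]
    exact Subspace.finrank_add_finrank_dualAnnihilator_eq X
  have h2 : Y.map (dotProductEquiv (ZMod 2) ι).toLinearMap ≤ X.dualAnnihilator := by
    rintro _ ⟨y, hy, rfl⟩
    rw [Submodule.mem_dualAnnihilator]
    intro x hx
    simpa using h x hx y hy
  have h3 : finrank (ZMod 2) (Y.map (dotProductEquiv (ZMod 2) ι).toLinearMap) ≤
    finrank (ZMod 2) X.dualAnnihilator := Submodule.finrank_mono h2
  have h4 : finrank (ZMod 2) (Y.map (dotProductEquiv (ZMod 2) ι).toLinearMap) =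
      finrank (ZMod 2) Y := LinearEquiv.finrank_map_eq (dotProductEquiv (ZMod 2) ι) Y
  omega

/-- Restricting a stabilizer state to a linear subspace, or pulling it back. -/
theorem StabLike.comp [DecidableEq ι] {f : BV ι → ℂ} (hf : StabLike f)
    (M : Matrix ι κ (ZMod 2)) : StabLike (fun x : BV κ => f (M.mulVec x)) := by
  classical
  by_cases h0 : (fun x : BV κ => f (M.mulVec x)) = 0
  · exact Or.inl h0
  right
  have hf0 : f ≠ 0 := by
    rintro rfl
    exact h0 rfl
  have hG : Fintype.card ι ≤ finrank (ZMod 2) (G f) := by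
    rcases hf with h | h
    · exact absurd h hf0
    · exact h
  -- the set of pairs `(p₁, p₂)` with `(M p₁, p₂) ∈ G f`
  let α : (BV κ × BV ι) →ₗ[ZMod 2] (BV ι × BV ι) := LinearMap.prodMap M.mulVecLin LinearMap.id
  let S : Submodule (ZMod 2) (BV κ × BV ι) := (G f).comap α
  let T : (BV κ × BV ι) →ₗ[ZMod 2] (BV κ × BV κ) :=
    LinearMap.prodMap LinearMap.id M.vecMulLinear
  have hST : S.map T ≤ G (fun x : BV κ => f (M.mulVec x)) := by
    rintro _ ⟨⟨p1, p2⟩, hp, rfl⟩
    obtain ⟨c, hc⟩ := hp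
    refine ⟨c, ?_⟩
    funext x
    have := congrFun hc (M.mulVec x)
    simp only [W, α, LinearMap.prodMap_apply, LinearMap.id_apply, Matrix.mulVecLin_apply,
      Pi.smul_apply, smul_eq_mul] at this
    simp only [W, T, LinearMap.prodMap_apply, LinearMap.id_apply, Matrix.vecMulLinear_apply,
      Pi.smul_apply, smul_eq_mul, Matrix.mulVec_add]
    rw [← Matrix.dotProduct_mulVec]
    exact this
  refine le_trans ?_ (Submodule.finrank_mono hST)
  -- kernel of `T` on `S`
  let K : Submodule (ZMod 2) (BV ι) :=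
    (G f).comap (LinearMap.inr (ZMod 2) (BV ι) (BV ι)) ⊓ LinearMap.ker M.vecMulLinear
  let θ : (G f × BV κ) →ₗ[ZMod 2] BV ι :=
    LinearMap.coprod ((LinearMap.fst (ZMod 2) (BV ι) (BV ι)).comp (G f).subtype) M.mulVecLin
  have h1 : finrank (ZMod 2) K + finrank (ZMod 2) (LinearMap.range θ) ≤ Fintype.card ι := by
    rw [add_comm]
    apply orth_le
    rintro _ ⟨⟨⟨⟨u, p2⟩, hu⟩, x⟩, rfl⟩ k ⟨hk1, hk2⟩
    have e1 : k ⬝ᵥ u = 0 := by
      have := G_comm hf0 hu hk1
      simpa using this
    have e2 : k ⬝ᵥ M.mulVec x = 0 := by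
      rw [Matrix.dotProduct_mulVec]
      have : Matrix.vecMul k M = 0 := hk2
      rw [this, zero_dotProduct]
    simp only [θ, LinearMap.coprod_apply, LinearMap.comp_apply, Submodule.subtype_apply,
      LinearMap.fst_apply, Matrix.mulVecLin_apply, dotProduct_add, e1, e2, add_zero]
  have h2 := LinearMap.finrank_range_add_finrank_ker θ
  rw [Module.finrank_prod, Module.finrank_fintype_fun_eq_card] at h2
  -- the kernel of `θ` is isomorphic to `S`
  have h3 : finrank (ZMod 2) (LinearMap.ker θ) ≤ finrank (ZMod 2) S := by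
    let g : LinearMap.ker θ →ₗ[ZMod 2] (BV κ × BV ι) :=
      (LinearMap.prod ((LinearMap.snd (ZMod 2) (G f) (BV κ)))
        ((LinearMap.snd (ZMod 2) (BV ι) (BV ι)).comp ((G f).subtype.comp
          (LinearMap.fst (ZMod 2) (G f) (BV κ))))).comp (LinearMap.ker θ).subtype
    have hg : ∀ z, g z ∈ S := by
      rintro ⟨⟨⟨⟨u, p2⟩, hu⟩, x⟩, hz⟩
      change (M.mulVec x, p2) ∈ G f
      have : u + M.mulVec x = 0 := hz
      have e : M.mulVec x = u := by
        have e1 := congrArg (fun w => w + M.mulVec x) this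
        simp only [bv_add_add_cancel, zero_add] at e1
        exact e1.symm
      rw [e]
      exact hu
    have hinj : Function.Injective (LinearMap.codRestrict S g hg) := by
      rintro ⟨⟨⟨⟨u, p2⟩, hu⟩, x⟩, hz⟩ ⟨⟨⟨⟨u', p2'⟩, hu'⟩, x'⟩, hz'⟩ h
      have h' := congrArg Subtype.val h
      have e1 : x = x' := congrArg Prod.fst h'
      have e2 : p2 = p2' := congrArg Prod.snd h'
      subst e1 e2
      have e3 : u + M.mulVec x = 0 := hz
      have e4 : u' + M.mulVec x = 0 := hz'
      have e5 : u = u' := add_right_cancel (e3.trans e4.symm)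
      subst e5
      rfl
    exact LinearMap.finrank_le_finrank_of_injective hinj
  -- rank-nullity for `T` on `S`
  have h4 := LinearMap.finrank_range_add_finrank_ker (T.domRestrict S)
  have h5 : finrank (ZMod 2) (LinearMap.ker (T.domRestrict S)) ≤ finrank (ZMod 2) K := by
    let g : LinearMap.ker (T.domRestrict S) →ₗ[ZMod 2] BV ι :=
      (LinearMap.snd (ZMod 2) (BV κ) (BV ι)).comp
        (S.subtype.comp (LinearMap.ker (T.domRestrict S)).subtype)
    have hx : ∀ z : LinearMap.ker (T.domRestrict S), (z.1.1.1 : BV κ) = 0 := by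
      rintro ⟨⟨⟨x, p2⟩, hS⟩, hz⟩
      exact congrArg Prod.fst (show T (x, p2) = 0 from hz)
    have hg : ∀ z, g z ∈ K := by
      intro z
      have h0 := hx z
      obtain ⟨⟨⟨x, p2⟩, hS⟩, hz⟩ := z
      have h0' : x = 0 := h0
      subst h0'
      refine ⟨?_, ?_⟩
      · have : (M.mulVec (0 : BV κ), p2) ∈ G f := hS
        rw [Matrix.mulVec_zero] at this
        exact this
      · exact congrArg Prod.snd (show T (0, p2) = 0 from hz)
    have hinj : Function.Injective (LinearMap.codRestrict K g hg) := by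
      intro z z' h
      have h0 := hx z
      have h0' := hx z'
      obtain ⟨⟨⟨x, p2⟩, hS⟩, hz⟩ := z
      obtain ⟨⟨⟨x', p2'⟩, hS'⟩, hz'⟩ := z'
      have e1 : x = 0 := h0
      have e2 : x' = 0 := h0'
      have e3 : p2 = p2' := congrArg Subtype.val h
      subst e1 e2 e3
      rfl
    exact LinearMap.finrank_le_finrank_of_injective hinj
  have h6 : finrank (ZMod 2) (LinearMap.range (T.domRestrict S)) =
      finrank (ZMod 2) (S.map T) := by
    rw [LinearMap.range_domRestrict]
  omega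

end Pool.Agent.R560.Stab
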